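import Mathlib

set_option autoImplicit false

namespace Pool.Agent.Results.MP_6fb3b3_lc.Cost

open Finset

lemma core {C : Type} [Fintype C] [DecidableEq C] (M : ℕ) (p : C → ℕ → C) (hC : 2 ≤ Fintype.card C)
    (h1 : ∀ c v, ∑ d ∈ range (M + 2), (if p c d = v then (1 : ℚ) else 0) = if c = v then 0 else 1)
    (E : Finset (ℕ × C × C)) (hE : ∀ c, ∀ d < M + 1, (d, p c d, p c (d + 1)) ∈ E) :
    Fintype.card C + 2 * M ≤ E.card := by
  have hne : ∀ c, ∀ d < M + 2, p c d ≠ c := fun c d hd h => by
    have := (sum_eq_zero_iff_of_nonneg (fun _ _ => by positivity)).mp ((h1 c c).trans (if_pos rfl)) d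
      (mem_range.mpr hd)
    simp [h] at this
  obtain ⟨c0⟩ : Nonempty C := Fintype.card_pos_iff.mp (by omega)
  let pick : Fin M × Bool → C := fun x => if x.2 then c0 else p c0 (x.1 + 1)
  let con : C ⊕ Fin M × Bool → C := Sum.elim id pick
  let len : C ⊕ Fin M × Bool → ℕ := Sum.elim (fun _ => M + 1) fun x => x.1 + 1
  have hlen : ∀ k, len k ≤ M + 1 := by
    rintro (c | x)
    · exact le_rfl
    · exact Nat.succ_le_succ x.1.2.le
  let v : C ⊕ Fin M × Bool → E → ℚ := fun k e =>
    ∑ d ∈ range (len k), if e.1 = (d, p (con k) d, p (con k) (d + 1)) then 1 else 0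
  have hli : LinearIndependent ℚ v := by
    rw [Fintype.linearIndependent_iff]
    intro g hg
    have test : ∀ φ : ℕ × C × C → ℚ,
        ∑ k, g k * ∑ d ∈ range (len k), φ (d, p (con k) d, p (con k) (d + 1)) = 0 := by
      intro φ
      have h0 : ∑ e : E, φ e.1 * (∑ k, g k • v k) e = 0 := by rw [hg]; simp
      rw [← h0]
      simp only [Finset.sum_apply, Pi.smul_apply, smul_eq_mul, mul_sum, v]
      rw [sum_comm (γ := E)]
      refine sum_congr rfl fun k _ => ?_
      rw [sum_comm (γ := E)]
      refine sum_congr rfl fun d hd => ?_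
      have hm := hE (con k) d (lt_of_lt_of_le (mem_range.mp hd) (hlen k))
      rw [sum_eq_single ⟨_, hm⟩]
      · simp [mul_comm]
      · intro e _ he
        rw [if_neg fun h => he (Subtype.ext h)]; simp
      · simp
    have hb : ∀ x, g (Sum.inr x) = 0 := by
      intro x
      have h := test fun e => (if e.1 + 1 = x.1 + 1 ∧ e.2.2 = p (pick x) (x.1 + 1) then 1 else 0) -
        (if e.1 = x.1 + 1 ∧ e.2.1 = p (pick x) (x.1 + 1) then 1 else 0)
      have tel := fun k => sum_range_sub (fun d =>
        if d = x.1 + 1 ∧ p (con k) d = p (pick x) (x.1 + 1) then (1 : ℚ) else 0) (len k)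
      simp only [tel] at h
      rw [sum_eq_single (Sum.inr x)] at h
      · simpa [len, con] using h
      · rintro (c | y) - hy
        · have := x.1.2
          rw [if_neg (by simp [len]; omega), if_neg (by omega)]; simp
        · rw [if_neg, if_neg (by omega)]
          · simp
          rintro ⟨a1, a2⟩
          obtain ⟨i, b⟩ := x
          obtain ⟨j, b'⟩ := y
          obtain rfl : j = i := Fin.ext (by simpa [len] using a1)
          have := hne (p c0 (j + 1)) (j + 1) (by omega)
          cases b <;> cases b'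
          · exact hy rfl
          · exact this a2.symm
          · exact this a2
          · exact hy rfl
      · simp
    have ha : ∀ u, g (Sum.inl u) = ∑ c, g (Sum.inl c) := by
      intro u
      have h := test fun e => (if e.2.2 = u then 1 else 0) + (if e.1 = 0 ∧ e.2.1 = u then 1 else 0)
      rw [Fintype.sum_sum_type] at h
      simp only [hb, zero_mul, sum_const_zero, add_zero, len, con, Sum.elim_inl, id] at h
      have e : ∀ c, ∑ d ∈ range (M + 1), ((if p c (d + 1) = u then (1 : ℚ) else 0) +
          if d = 0 ∧ p c d = u then 1 else 0) = 1 - if c = u then 1 else 0 := by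
        intro c
        have := h1 c u
        rw [sum_range_succ'] at this
        rw [sum_add_distrib, sum_eq_single 0 (f := fun d => if d = 0 ∧ p c d = u then (1 : ℚ) else 0)]
        · simp only [true_and]
          rw [this]; split_ifs <;> simp
        · intro d _ hd; simp [hd]
        · simp
      replace h := (sum_congr rfl fun c _ => congrArg (g (Sum.inl c) * ·) (e c)).symm.trans h
      simp only [mul_sub, mul_one, sum_sub_distrib, mul_ite, mul_zero, sum_ite_eq', mem_univ,
        if_true] at h
      linarith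
    have hs : ∑ c, g (Sum.inl c) = 0 := by
      have : ∑ u, g (Sum.inl u) = ∑ _u : C, ∑ c, g (Sum.inl c) := sum_congr rfl fun u _ => ha u
      rw [sum_const, card_univ, nsmul_eq_mul] at this
      have h2 : (2 : ℚ) ≤ Fintype.card C := by exact_mod_cast hC
      have h3 : ((Fintype.card C : ℚ) - 1) * ∑ c, g (Sum.inl c) = 0 := by linarith
      exact (mul_eq_zero.mp h3).resolve_left (by linarith)
    rintro (c | x)
    · rw [ha, hs]
    · exact hb x
  have := hli.fintype_card_le_finrank
  simp at this
  omega

lemma lower (K : ℕ) (P : Fin (K + 2) → Equiv.Perm (Fin (K + 2)))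
    (hP : ∀ n, P n (Fin.last (K + 1)) = n) :
    4 * (K + 2) - 6 ≤ (univ.image fun x : Fin (K + 2) × Fin (K + 1) =>
      (x.2, P x.1 x.2.castSucc, P x.1 x.2.succ)).card := by
  set E := univ.image fun x : Fin (K + 2) × Fin (K + 1) =>
      (x.2, P x.1 x.2.castSucc, P x.1 x.2.succ) with hE
  rw [← card_filter_add_card_filter_not (s := E) fun e => e.1 = Fin.last K]
  have l1 : K + 2 ≤ (E.filter fun e => e.1 = Fin.last K).card := by
    have := card_le_card_of_injOn (s := (univ : Finset (Fin (K + 2))))
      (t := E.filter fun e => e.1 = Fin.last K)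
      (fun n => (Fin.last K, P n (Fin.last K).castSucc, P n (Fin.last K).succ))
      (fun n _ => by
        simp only [coe_filter, Set.mem_ofPred_eq, and_true]
        exact mem_image.mpr ⟨(n, Fin.last K), mem_univ _, rfl⟩)
      (fun n _ m _ h => by
        have := congrArg (fun e => e.2.2) h
        simpa [hP] using this)
    simpa using this
  cases K with
  | zero => omega
  | succ M =>
    let p : Fin (M + 3) → ℕ → Fin (M + 3) := fun c d => P c (Fin.ofNat _ d)
    have l2 := core M p (by simp) (fun c v => by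
      have h := Equiv.sum_comp (P c) fun u => if u = v then (1 : ℚ) else 0
      rw [Fin.sum_univ_castSucc, hP, sum_ite_eq', if_pos (mem_univ _)] at h
      rw [sum_range]
      have e : ∀ i : Fin (M + 2), p c i = P c i.castSucc := fun i =>
        congrArg (P c) (Fin.ext (Nat.mod_eq_of_lt (by omega)))
      simp only [e]
      split_ifs at h ⊢ <;> linarith)
      ((E.filter fun e => ¬ e.1 = Fin.last (M + 1)).image fun e => (e.1.val, e.2))
      (fun c d hd => mem_image.mpr ⟨(⟨d, by omega⟩, p c d, p c (d + 1)), mem_filter.mpr ⟨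
        mem_image.mpr ⟨(c, ⟨d, by omega⟩), mem_univ _, by
          simp only [p, Prod.mk.injEq, true_and]
          exact ⟨congrArg (P c) (Fin.ext (Nat.mod_eq_of_lt (by omega)).symm),
            congrArg (P c) (Fin.ext (Nat.mod_eq_of_lt (by simp; omega)).symm)⟩⟩,
        by simp [Fin.ext_iff]; omega⟩, rfl⟩)
    have l3 := l2.trans card_image_le
    simp only [Fintype.card_fin] at l3
    omega

theorem result (N : ℕ) (hN : 1 ≤ N) :
    IsLeast {c : ℕ | ∃ P : Fin (N + 1) → Equiv.Perm (Fin (N + 1)), (∀ n, P n (Fin.last N) = n) ∧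
      c = (univ.image fun x : Fin (N + 1) × Fin N =>
        (x.2, P x.1 x.2.castSucc, P x.1 x.2.succ)).card} (4 * (N + 1) - 6) := by
  obtain ⟨K, rfl⟩ : ∃ K, N = K + 1 := ⟨N - 1, by omega⟩
  refine ⟨?_, fun c ⟨P, hP, h⟩ => h ▸ lower K P hP⟩
  let P : Fin (K + 2) → Equiv.Perm (Fin (K + 2)) := fun n =>
    finSuccEquivLast.trans (finSuccEquiv' n).symm
  have h1 : ∀ n, P n (Fin.last (K + 1)) = n := fun n => by simp [P]
  have h2 : ∀ n (d : Fin (K + 1)), P n d.castSucc = n.succAbove d := fun n d => by simp [P]
  refine ⟨P, h1, le_antisymm (lower K P h1) ?_⟩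
  let f : Fin K × Fin 3 ⊕ Fin (K + 2) → Fin (K + 1) × Fin (K + 2) × Fin (K + 2) :=
    Sum.elim (fun x => (x.1.castSucc, ![(x.1.castSucc.castSucc, x.1.succ.castSucc),
      (x.1.castSucc.castSucc, x.1.succ.succ), (x.1.castSucc.succ, x.1.succ.succ)] x.2))
      fun n => (Fin.last K, P n (Fin.last K).castSucc, P n (Fin.last K).succ)
  refine (card_le_card (t := univ.image f) ?_).trans (card_image_le.trans (by simp; omega))
  intro e he
  obtain ⟨⟨n, d⟩, -, rfl⟩ := mem_image.mp he
  simp only [mem_image, mem_univ, true_and]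
  induction d using Fin.lastCases with
  | last => exact ⟨Sum.inr n, rfl⟩
  | cast d =>
    rw [Fin.succ_castSucc, h2, h2]
    simp only [Fin.succAbove]
    split_ifs with a b b
    · exact ⟨Sum.inl (d, 0), rfl⟩
    · exact ⟨Sum.inl (d, 1), rfl⟩
    · exact absurd (lt_trans (by simp [Fin.lt_def]) b) a
    · exact ⟨Sum.inl (d, 2), rfl⟩

end Pool.Agent.Results.MP_6fb3b3_lc.Cost
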